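import Pool.Agent.U455.EV

set_option autoImplicit false

/-!
# Iterates of `p ↦ 2 p - 1`: every multiple of six is a bounded sum of times, at every scale

`a_j(p) = 2 ^ j (p - 1) + 1` is the `j`-th iterate of `2 p - 1`. There is an absolute `h` such that for every `R` there is
`C` such that for EVERY multiple `t ≥ C` of `6` and every `η > 0`, at EVERY large `x`: `t` is a sum of at most `h`
numbers `k ≥ 1` for each of which there are at least `x ^ (1 - η)` primes `p ≤ x` whose next prime iterate is the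
`k`-th one, followed by `R` composite iterates, and which are not one of the first `R` iterates of a prime.

Proof: the starting result `Pool.Agent.Y862.transferEv` (almost a third of the multiples of every number at every scale)
for the multiples of `1`, `2`, `3` and the theorem on bounded sums `Pool.Agent.U455.BT.main` (a covering lemma,
Schnirelmann's theorem in a class modulo `d ≤ 3` and for blocks which contain a multiple of `d`).
-/

namespace Pool.Agent.Results.MP_0fefc4_nt.BoundedSumsEveryScale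

open Filter

theorem result : ∃ h : ℕ, ∀ R : ℕ, ∃ C : ℕ, ∀ t : ℕ, 6 ∣ t → C ≤ t → ∀ η : ℝ, 0 < η →
    ∀ᶠ x : ℝ in atTop, ∃ l : List ℕ, l.length ≤ h ∧ l.sum = t ∧ ∀ k ∈ l, 1 ≤ k ∧
      x ^ (1 - η) ≤ ({p : ℕ | (p : ℝ) ≤ x ∧ p.Prime ∧ (2 ^ k * (p - 1) + 1).Prime ∧
        (∀ l, 0 < l → l < k → ¬ (2 ^ l * (p - 1) + 1).Prime) ∧
        ∀ l, 0 < l → l ≤ R → ¬ (2 ^ (k + l) * (p - 1) + 1).Prime ∧
          ∀ q : ℕ, q.Prime → 2 ^ l * (q - 1) + 1 ≠ p}.ncard : ℝ) := by
  obtain ⟨h, hh⟩ := Pool.Agent.U455.EV.main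
  refine ⟨h, fun R => ?_⟩
  obtain ⟨C, hC⟩ := hh 2 (-1) 1 le_rfl (by norm_num) (by norm_num) one_pos
    (fun p hp h => absurd (Nat.dvd_one.1 (by simpa using h)) hp.one_lt.ne')
    (fun p j => 2 ^ j * (p - 1) + 1)
    (fun p j hp => by
      have h1 : 1 ≤ p := hp.one_lt.le
      rw [Pool.Agent.H447R3.IT.iter, Pool.Agent.W218.OG.B_two]
      push_cast [Nat.cast_sub h1]
      ring) R
  refine ⟨C, fun t h6 ht η hη => ?_⟩
  filter_upwards [hC t h6 ht η hη] with x hx
  obtain ⟨l, hl1, hl2, hl3⟩ := hx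
  refine ⟨l, hl1, hl2, fun k hk => ?_⟩
  have h3 := hl3 k hk
  unfold Pool.Agent.U455.EV.num at h3
  simp only [one_mul] at h3
  exact h3

end Pool.Agent.Results.MP_0fefc4_nt.BoundedSumsEveryScale
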