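import Pool.Agent.U28.SF.SF10
import Pool.Agent.U28.SF.FD
import Pool.Agent.U28.PG.K45c

set_option autoImplicit false

/-!
# Iterates of `x ↦ 2 x - 1` which are prime, in all short intervals

The `k`-th iterate of `x ↦ 2 x - 1` at `p` is `2 ^ k (p - 1) + 1`. We consider, for a time `k ≥ 1`, the primes `p ≤ N` for
which it is prime (`k = 1` is the question). The starting hand-ins give lower bounds `x ^ (1 - η)` for the number of these
primes up to `x` for many times `k`. Here: among any 45 times two have a difference `k` for which a positive proportion of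
all `n ≤ N` have the property that ALL intervals `(n, n + H]` with `(log N) ^ 45 ≤ H ≤ N`, simultaneously, contain at least
`κ H / (log N) ^ 45` of them, even of first terms of progressions of `m` of them with difference at most a power of `log N`.

The proof: the library's theorem on two primes among 45 linear forms with the other values free of small prime factors
(`X34.E`), for the forms `2 ^ e n + 1`, `e ∈ E`; a second moment at the mean spacing for sets avoiding the residue classes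
of an upper bound sieve, which transfers counts to all short intervals, in the variable `p = 2 ^ a n + 1`
(`Pool.Agent.U28.SF`); the library's theorem of Szemerédi for sifted sets. The difference theorem is turned into a count
of the times by a combinatorial lemma (`finite_dense`): a set of integers which meets the differences of all
`r + 1`-element subsets of `[0, T]` has at least `(T - (r - 1)) / r` elements in `[1, T]`.
-/

namespace Pool.Agent.Results.MP_0fefc4_nt.IteratesInAllShortIntervals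

open Finset Filter

/-- the primes `p ≤ N` for which the `k`-th iterate of `x ↦ 2 x - 1` at `p`, `2 ^ k (p - 1) + 1`, is prime -/
def P (k N : ℕ) : Finset ℕ := (Icc 1 N).filter (fun p => p.Prime ∧ (2 ^ k * (p - 1) + 1).Prime)

/-- `p` is the first of `m` terms of an arithmetic progression in `A` with difference between `1` and `D` -/
def FirstTerm (m : ℕ) (D : ℝ) (A : Finset ℕ) (p : ℕ) : Prop :=
  ∃ d : ℕ, 1 ≤ d ∧ (d : ℝ) ≤ D ∧ ∀ j < m, p + j * d ∈ A

open Classical in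
/-- At least `κ N` of the integers `0 ≤ n ≤ N` are such that for ALL natural numbers `H` with `(log N) ^ 45 ≤ H ≤ N` the
interval `(n, n + H]` contains at least `κ H / (log N) ^ 45` first terms `p` of progressions of `m` elements of `P k N`
with difference at most `(log N) ^ B`. -/
def Rich (m : ℕ) (κ : ℝ) (B N k : ℕ) : Prop :=
  κ * N ≤ (((range (N + 1)).filter (fun n => ∀ H : ℕ, Real.log N ^ 45 ≤ H → H ≤ N →
    κ * (H / Real.log N ^ 45) ≤
      (((Ioc n (n + H)).filter (FirstTerm m (Real.log N ^ B) (P k N))).card : ℝ))).card : ℝ)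

lemma log_ge {N : ℕ} (hN : 3 ≤ N) : 1 ≤ Real.log N := by
  rw [Real.le_log_iff_exp_le (by positivity)]
  have h1 := Real.exp_one_lt_d9
  have h2 : (3 : ℝ) ≤ N := by exact_mod_cast hN
  linarith

open Classical in
lemma rich_of {m : ℕ} {κ : ℝ} {B N k : ℕ} (hN : 3 ≤ N) (h : Pool.Agent.U28.PG.AllLengths κ (1 / Real.log N ^ 45) N
    (Pool.Agent.U28.PG.FirstAP m (Real.log N ^ B) (Pool.Agent.U28.SF.PP k N))) : Rich m κ B N k := by
  have hL := log_ge hN
  have hL0 : (0 : ℝ) < Real.log N ^ 45 := by positivity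
  unfold Pool.Agent.U28.PG.AllLengths at h
  unfold Rich
  refine h.trans ?_
  rw [Nat.cast_le]
  apply card_le_card
  intro n hn
  rw [mem_filter] at hn ⊢
  refine ⟨hn.1, fun H h1 h2 => ?_⟩
  have h3 := hn.2 H (by rw [one_div, inv_mul_eq_div, one_le_div hL0]; exact h1) h2
  rw [one_div, inv_mul_eq_div] at h3
  exact h3

open Classical in
lemma rich_mono {m : ℕ} {κ κ' : ℝ} {B B' N k : ℕ} (hN : 3 ≤ N) (hκ : κ' ≤ κ) (hB : B ≤ B') (h : Rich m κ B N k) :
    Rich m κ' B' N k := by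
  have hL := log_ge hN
  have hL0 : (0 : ℝ) < Real.log N ^ 45 := by positivity
  unfold Rich at h ⊢
  refine (mul_le_mul_of_nonneg_right hκ (Nat.cast_nonneg N)).trans (h.trans ?_)
  rw [Nat.cast_le]
  apply card_le_card
  intro n hn
  rw [mem_filter] at hn ⊢
  refine ⟨hn.1, fun H h1 h2 => ?_⟩
  refine (mul_le_mul_of_nonneg_right hκ (by positivity)).trans ((hn.2 H h1 h2).trans ?_)
  rw [Nat.cast_le]
  apply card_le_card
  intro p hp
  rw [mem_filter] at hp ⊢
  obtain ⟨hp1, d, h3, h4, h5⟩ := hp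
  exact ⟨hp1, d, h3, h4.trans (pow_le_pow_right₀ hL hB), h5⟩

open Classical in
lemma rich_mono_m {m m' : ℕ} {κ : ℝ} {B N k : ℕ} (hm : m' ≤ m) (h : Rich m κ B N k) : Rich m' κ B N k := by
  unfold Rich at h ⊢
  refine h.trans ?_
  rw [Nat.cast_le]
  apply card_le_card
  intro n hn
  rw [mem_filter] at hn ⊢
  refine ⟨hn.1, fun H h1 h2 => (hn.2 H h1 h2).trans ?_⟩
  rw [Nat.cast_le]
  apply card_le_card
  intro p hp
  rw [mem_filter] at hp ⊢
  obtain ⟨hp1, d, h3, h4, h5⟩ := hp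
  exact ⟨hp1, d, h3, h4, fun j hj => h5 j (lt_of_lt_of_le hj hm)⟩

/-- the pairs `a < b` of a set -/
def pairs (E : Finset ℕ) : Finset (ℕ × ℕ) := (E ×ˢ E).filter (fun z => z.1 < z.2)

open Classical in
/-- **Prime iterates of `2 x - 1` in all short intervals.**

1. For all `m` and every set `E` of 45 natural numbers there are `κ > 0` and `B` such that for all large `N` some `a < b`
in `E` have `Rich m κ B N (b - a)`.
2. For all `m` and `T` there are `κ > 0` and `B` such that for ALL large `N` at least `(T - 43) / 44` of the times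
`1 ≤ k ≤ T` satisfy `Rich m κ B N k`.
3. There is a set `D` of times which has at least `(T - 43) / 44` elements in `[1, T]`, for all `T`, and bounded gaps, such
that for all `k ∈ D` and all `m` there are `κ > 0` and `B` such that `Rich m κ B N k` holds for arbitrarily large `N`. -/
theorem result :
    (∀ (m : ℕ) (E : Finset ℕ), E.card = 45 → ∃ κ : ℝ, 0 < κ ∧ ∃ B N₀ : ℕ, ∀ N : ℕ, N₀ ≤ N →
      ∃ a ∈ E, ∃ b ∈ E, a < b ∧ Rich m κ B N (b - a)) ∧
    (∀ m T : ℕ, ∃ κ : ℝ, 0 < κ ∧ ∃ B N₀ : ℕ, ∀ N : ℕ, N₀ ≤ N →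
      T ≤ 44 * ((Icc 1 T).filter (Rich m κ B N)).card + 43) ∧
    ∃ D : Set ℕ, (∀ T : ℕ, T ≤ 44 * ((Icc 1 T).filter (· ∈ D)).card + 43) ∧
      (∃ L : ℕ, ∀ x : ℕ, ∃ k ∈ D, x < k ∧ k ≤ x + L) ∧
      ∀ k ∈ D, ∀ m : ℕ, ∃ κ : ℝ, 0 < κ ∧ ∃ B : ℕ, ∀ N₀ : ℕ, ∃ N : ℕ, N₀ ≤ N ∧ Rich m κ B N k := by
  have part1 : ∀ (m : ℕ) (E : Finset ℕ), E.card = 45 → ∃ κ : ℝ, 0 < κ ∧ ∃ B : ℕ, ∀ᶠ N : ℕ in atTop,
      ∃ a ∈ E, ∃ b ∈ E, a < b ∧ Rich m κ B N (b - a) := by
    intro m E hE
    obtain ⟨κ, hκ, B, h⟩ := Pool.Agent.U28.SF.iter_all m E hE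
    refine ⟨κ, hκ, B, ?_⟩
    filter_upwards [h, eventually_ge_atTop 3] with N hN hN3
    obtain ⟨a, ha, b, hb, hab, h1⟩ := hN
    exact ⟨a, ha, b, hb, hab, rich_of hN3 h1⟩
  refine ⟨?_, ?_, ?_⟩
  · intro m E hE
    obtain ⟨κ, hκ, B, h⟩ := part1 m E hE
    obtain ⟨N₀, hN₀⟩ := eventually_atTop.1 h
    exact ⟨κ, hκ, B, N₀, hN₀⟩
  · intro m T
    obtain ⟨κ, hκ, B, h⟩ := Pool.Agent.U28.SF.unif (ι := Finset ℕ)
      (fun E κ B N => ∃ a ∈ E, ∃ b ∈ E, a < b ∧ Rich m κ B N (b - a)) 3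
      (fun E κ κ' B B' N hN hκ hB h => by
        obtain ⟨a, ha, b, hb, hab, h1⟩ := h
        exact ⟨a, ha, b, hb, hab, rich_mono hN hκ hB h1⟩)
      (powersetCard 45 (range (T + 1))) (fun E hE => part1 m E (mem_powersetCard.1 hE).2)
    obtain ⟨N₀, hN₀⟩ := eventually_atTop.1 h
    refine ⟨κ, hκ, B, N₀, fun N hN => ?_⟩
    exact Pool.Agent.U28.SF.finite_dense 44 (by norm_num) (Rich m κ B N) T
      (fun A hA hA45 => hN₀ N hN A (mem_powersetCard.2 ⟨hA, hA45⟩))
  · set D : Set ℕ := {k | ∀ m : ℕ, ∃ κ : ℝ, 0 < κ ∧ ∃ B : ℕ, ∀ N₀ : ℕ, ∃ N : ℕ, N₀ ≤ N ∧ Rich m κ B N k} with hD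
    have hdiff : ∀ A : Finset ℕ, A.card = 44 + 1 → ∃ a ∈ A, ∃ b ∈ A, a < b ∧ (b - a) ∈ D := by
      intro A hA
      have h1 : ∀ m : ℕ, ∃ z ∈ pairs A, ∃ κ : ℝ, 0 < κ ∧ ∃ B : ℕ, ∀ N₀ : ℕ, ∃ N : ℕ, N₀ ≤ N ∧
          Rich m κ B N (z.2 - z.1) := by
        intro m
        obtain ⟨κ, hκ, B, h⟩ := part1 m A hA
        obtain ⟨z, hz, h2⟩ := Pool.Agent.U28.SF.frequently_finset_exists (pairs A)
          (fun z N => Rich m κ B N (z.2 - z.1)) (by
            filter_upwards [h] with N hN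
            obtain ⟨a, ha, b, hb, hab, h1⟩ := hN
            exact ⟨(a, b), mem_filter.2 ⟨mem_product.2 ⟨ha, hb⟩, hab⟩, h1⟩)
        refine ⟨z, hz, κ, hκ, B, fun N₀ => ?_⟩
        obtain ⟨N, h3, h4⟩ := frequently_atTop.1 h2 N₀
        exact ⟨N, h3, h4⟩
      obtain ⟨z, hz, h2⟩ := Pool.Agent.U28.SF.frequently_finset_exists (pairs A)
        (fun z m => ∃ κ : ℝ, 0 < κ ∧ ∃ B : ℕ, ∀ N₀ : ℕ, ∃ N : ℕ, N₀ ≤ N ∧ Rich m κ B N (z.2 - z.1))
        (Eventually.of_forall h1)
      obtain ⟨hz1, hz2⟩ := mem_filter.1 hz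
      refine ⟨z.1, (mem_product.1 hz1).1, z.2, (mem_product.1 hz1).2, hz2, fun m => ?_⟩
      obtain ⟨m', h3, κ, hκ, B, h4⟩ := frequently_atTop.1 h2 m
      refine ⟨κ, hκ, B, fun N₀ => ?_⟩
      obtain ⟨N, h5, h6⟩ := h4 N₀
      exact ⟨N, h5, rich_mono_m h3 h6⟩
    refine ⟨D, fun T => ?_, ?_, fun k hk m => hk m⟩
    · exact Pool.Agent.U28.SF.finite_dense 44 (by norm_num) (· ∈ D) T (fun A _ hA => hdiff A hA)
    · obtain ⟨L, _, hL⟩ := Pool.Agent.U28.PG.dense_of_differences 44 (· ∈ D) hdiff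
      refine ⟨L, fun x => ?_⟩
      obtain ⟨k, h1, h2, h3⟩ := hL x
      exact ⟨k, h3, h1, h2⟩

end Pool.Agent.Results.MP_0fefc4_nt.IteratesInAllShortIntervals
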